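import Pool.Agent.Helper57.SS.Goals2

/-!
# Project SS (MP_9a4587_an), packet ES3: singular spectral measures pass to the ergodic components
-/

set_option autoImplicit false

namespace Pool.Agent.Helper9.SS

open MeasureTheory ProbabilityTheory Filter Topology
open scoped ComplexConjugate
open Pool.Agent.Helper57.SS

/-- The quadratic form of a trigonometric polynomial. -/
noncomputable def QQ (c : ℤ →₀ ℂ) (r : ℤ → ℝ) : ℝ :=
  ∑ p ∈ c.support, ∑ q ∈ c.support, (c p * conj (c q)).re * r (p - q)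

theorem norm_sq_sum (s : Finset ℤ) (a : ℤ → ℂ) :
    ((‖∑ p ∈ s, a p‖ ^ 2 : ℝ) : ℂ) = ∑ p ∈ s, ∑ q ∈ s, a p * conj (a q) := by
  rw [← Finset.sum_mul_sum, ← map_sum, Complex.mul_conj, Complex.normSq_eq_norm_sq]

theorem integrable_fourier (σ : Measure Ci) [IsFiniteMeasure σ] (k : ℤ) :
    Integrable (fun z : Ci => fourier k z) σ := by
  refine Integrable.of_bound (fourier k).continuous.aestronglyMeasurable 1
    (Eventually.of_forall fun z => ?_)
  simp [fourier_apply]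

/-- The integral of the square of a trigonometric polynomial. -/
theorem int_sq (σ : Measure Ci) [IsFiniteMeasure σ] (r : ℤ → ℝ)
    (h : ∀ k : ℤ, ∫ z, fourier k z ∂σ = ((r k : ℝ) : ℂ)) (c : ℤ →₀ ℂ) :
    ∫ z, ‖c.sum fun n u => u * fourier n z‖ ^ 2 ∂σ = QQ c r := by
  have h1 : ((∫ z, ‖c.sum fun n u => u * fourier n z‖ ^ 2 ∂σ : ℝ) : ℂ) =
      ∑ p ∈ c.support, ∑ q ∈ c.support, c p * conj (c q) * ((r (p - q) : ℝ) : ℂ) := by
    rw [← integral_complex_ofReal]
    have e1 : ∀ z : Ci, ((‖c.sum fun n u => u * fourier n z‖ ^ 2 : ℝ) : ℂ) =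
        ∑ p ∈ c.support, ∑ q ∈ c.support, c p * conj (c q) * fourier (p - q) z := by
      intro z
      rw [Finsupp.sum, norm_sq_sum]
      refine Finset.sum_congr rfl fun p _ => Finset.sum_congr rfl fun q _ => ?_
      rw [map_mul, sub_eq_add_neg, fourier_add, fourier_neg]
      ring
    simp_rw [e1]
    rw [integral_finset_sum _ fun p _ => integrable_finset_sum _ fun q _ =>
      (integrable_fourier σ (p - q)).const_mul _]
    refine Finset.sum_congr rfl fun p _ => ?_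
    rw [integral_finset_sum _ fun q _ => (integrable_fourier σ (p - q)).const_mul _]
    refine Finset.sum_congr rfl fun q _ => ?_
    rw [integral_const_mul, h]
  have h2 := congrArg Complex.re h1
  rw [Complex.ofReal_re] at h2
  rw [h2, Complex.re_sum]
  unfold QQ
  refine Finset.sum_congr rfl fun p _ => ?_
  rw [Complex.re_sum]
  refine Finset.sum_congr rfl fun q _ => ?_
  rw [Complex.re_mul_ofReal]

/-- Nonnegative functions with summable integrals tend to `0` almost everywhere. -/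
theorem ae_tendsto_zero {X : Type*} [MeasurableSpace X] (ν : Measure X) (g : ℕ → X → ℝ)
    (ε : ℕ → ℝ) (hε : Summable ε) (hε0 : ∀ j, 0 ≤ ε j) (hm : ∀ j, Measurable (g j))
    (hi : ∀ j, Integrable (g j) ν) (hn : ∀ j, 0 ≤ᵐ[ν] g j) (hle : ∀ j, ∫ x, g j x ∂ν ≤ ε j) :
    ∀ᵐ x ∂ν, Tendsto (fun j => g j x) atTop (𝓝 0) := by
  have h1 : ∫⁻ x, ∑' j, ENNReal.ofReal (g j x) ∂ν ≠ ⊤ := by
    rw [lintegral_tsum fun j => (hm j).ennreal_ofReal.aemeasurable]
    have h2 : ∀ j, ∫⁻ x, ENNReal.ofReal (g j x) ∂ν ≤ ENNReal.ofReal (ε j) := by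
      intro j
      rw [← ofReal_integral_eq_lintegral_ofReal (hi j) (hn j)]
      exact ENNReal.ofReal_le_ofReal (hle j)
    refine ne_top_of_le_ne_top ?_ (ENNReal.tsum_le_tsum h2)
    exact hε.tsum_ofReal_ne_top
  have h3 : ∀ᵐ x ∂ν, ∑' j, ENNReal.ofReal (g j x) < ⊤ :=
    ae_lt_top (Measurable.ennreal_tsum fun j => (hm j).ennreal_ofReal) h1
  have h4 : ∀ᵐ x ∂ν, ∀ j, 0 ≤ g j x := ae_all_iff.2 fun j => hn j
  filter_upwards [h3, h4] with x hx hx0
  have h5 := ENNReal.tendsto_atTop_zero_of_tsum_ne_top hx.ne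
  have h6 := (ENNReal.tendsto_toReal ENNReal.zero_ne_top).comp h5
  simp only [ENNReal.toReal_zero] at h6
  refine h6.congr fun j => ?_
  simp only [Function.comp]
  exact ENNReal.toReal_ofReal (hx0 j)

theorem gES3 : G_ES3 := by
  intro hES1 hES2 hK2 hK3 hHZ hHZ1 hRPD hZP hSPZ X _ _ ν _ T hT f hf hs
  obtain ⟨σ, hσ, hsing⟩ := hs
  haveI : IsFiniteMeasure σ := hσ.1
  -- the trigonometric polynomials
  have hex : ∀ j : ℕ, ∃ c : ℤ →₀ ℂ,
      ∫ z, ‖c.sum fun n u => u * fourier n z‖ ^ 2 ∂σ ≤ (1 / 4 : ℝ) ^ j ∧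
      ∫ z, ‖(c.sum fun n u => u * fourier n z) - 1‖ ^ 2 ∂(volume : Measure Ci) ≤ (1 / 4 : ℝ) ^ j :=
    fun j => hES1 σ hsing _ (by positivity)
  choose c hc1 hc2 using hex
  obtain ⟨k1, k2, k3, k4, k5, k6⟩ := hK2 X ν (⇑T) hT
  have hTinv : MeasurableSpace.invariants (⇑T) ≤ (inferInstance : MeasurableSpace X) :=
    MeasurableSpace.invariants_le _
  obtain ⟨z0, z1, z2, z3, z4, z5, z6⟩ := hZP X T
  -- the functions `f ∘ T^m · f`
  have hF : ∀ m : ℤ, Bd (fun x => f (zp T m x) * f x) := by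
    intro m
    refine ⟨(hf.1.comp (z4 m)).mul hf.1, fun x => ?_⟩
    rw [abs_mul]
    exact mul_le_one₀ (hf.2 _) (abs_nonneg _) (hf.2 _)
  have hrm : ∀ m : ℤ, Measurable fun u => rr T (kap ν (⇑T) u) f m := fun m =>
    (k2 _ (hF m)).mono hTinv le_rfl
  have hrb : ∀ (m : ℤ) u, |rr T (kap ν (⇑T) u) f m| ≤ 1 := by
    intro m u
    haveI := k1 u
    unfold rr
    calc |∫ x, f (zp T m x) * f x ∂(kap ν (⇑T) u)|
        ≤ ∫ x, |f (zp T m x) * f x| ∂(kap ν (⇑T) u) := abs_integral_le_integral_abs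
      _ ≤ ∫ _x, (1 : ℝ) ∂(kap ν (⇑T) u) :=
        integral_mono_of_nonneg (Eventually.of_forall fun x => abs_nonneg _)
          (integrable_const _) (Eventually.of_forall fun x => (hF m).2 x)
      _ = 1 := by simp
  have hri : ∀ m : ℤ, Integrable (fun u => rr T (kap ν (⇑T) u) f m) ν := fun m =>
    Integrable.of_bound (hrm m).aestronglyMeasurable 1
      (Eventually.of_forall fun u => by rw [Real.norm_eq_abs]; exact hrb m u)
  have hQm : ∀ j, Measurable fun u => QQ (c j) (rr T (kap ν (⇑T) u) f) := by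
    intro j
    unfold QQ
    exact Finset.measurable_sum _ fun p _ => Finset.measurable_sum _ fun q _ =>
      (hrm (p - q)).const_mul _
  have hQi : ∀ j, Integrable (fun u => QQ (c j) (rr T (kap ν (⇑T) u) f)) ν := by
    intro j
    unfold QQ
    exact integrable_finset_sum _ fun p _ => integrable_finset_sum _ fun q _ =>
      (hri (p - q)).const_mul _
  have hQint : ∀ j, ∫ u, QQ (c j) (rr T (kap ν (⇑T) u) f) ∂ν = QQ (c j) (rr T ν f) := by
    intro j
    unfold QQ
    rw [integral_finset_sum _ fun p _ => integrable_finset_sum _ fun q _ =>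
      (hri (p - q)).const_mul _]
    refine Finset.sum_congr rfl fun p _ => ?_
    rw [integral_finset_sum _ fun q _ => (hri (p - q)).const_mul _]
    refine Finset.sum_congr rfl fun q _ => ?_
    rw [integral_const_mul]
    congr 1
    exact (k4 _ (hF (p - q))).symm
  have hQle : ∀ j, ∫ u, QQ (c j) (rr T (kap ν (⇑T) u) f) ∂ν ≤ (1 / 4 : ℝ) ^ j := by
    intro j
    rw [hQint j, ← int_sq σ _ (fun k => hSPZ hZP X ν T hT f hf σ hσ k) (c j)]
    exact hc1 j
  -- the spectral measures of the components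
  have hspec : ∀ᵐ u ∂ν, ∃ σu : Measure Ci, IsFiniteMeasure σu ∧
      ∀ k : ℤ, ∫ z, fourier k z ∂σu = ((rr T (kap ν (⇑T) u) f k : ℝ) : ℂ) := by
    filter_upwards [hK3 X ν (⇑T) hT] with u hu
    haveI := k1 u
    obtain ⟨r1, -, r3⟩ := hRPD hZP X (kap ν (⇑T) u) T hu f hf
    exact hHZ1 hHZ _ r1 r3
  have hQn : ∀ j, 0 ≤ᵐ[ν] fun u => QQ (c j) (rr T (kap ν (⇑T) u) f) := by
    intro j
    filter_upwards [hspec] with u hu
    obtain ⟨σu, hfin, hk⟩ := hu
    rw [← int_sq σu _ hk (c j)]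
    exact integral_nonneg fun z => by positivity
  have hlim : ∀ᵐ u ∂ν, Tendsto (fun j => QQ (c j) (rr T (kap ν (⇑T) u) f)) atTop (𝓝 0) :=
    ae_tendsto_zero ν _ (fun j => (1 / 4 : ℝ) ^ j)
      (summable_geometric_of_lt_one (by norm_num) (by norm_num)) (fun j => by positivity)
      hQm hQi hQn hQle
  have hvol : Tendsto (fun j => ∫ z, ‖((c j).sum fun n u => u * fourier n z) - 1‖ ^ 2
      ∂(volume : Measure Ci)) atTop (𝓝 0) :=
    squeeze_zero (fun j => integral_nonneg fun z => by positivity) hc2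
      (tendsto_pow_atTop_nhds_zero_of_lt_one (by norm_num) (by norm_num))
  filter_upwards [hspec, hlim] with u hu hl
  obtain ⟨σu, hfin, hk⟩ := hu
  refine ⟨σu, ⟨hfin, fun n => ?_⟩, hES2 σu c ?_ hvol⟩
  · rw [hk]
    rfl
  · refine hl.congr fun j => ?_
    exact (int_sq σu _ hk (c j)).symm

end Pool.Agent.Helper9.SS
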