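import Pool.Agent.Helper61.SS.Goals

/-!
# Project SS, packet KEY: slices of the radical by excisable functionals are in the radical
-/

set_option autoImplicit false

namespace Pool.Agent.Helper9.SS

open TensorProduct Filter Topology
open Pool.Agent.Helper61.SS

universe u v w

section powers

theorem pw_mul_pw {B : Type u} [Semigroup B] (x : B) (n m : ℕ) :
    pw x n * pw x m = pw x (n + m + 1) := by
  induction m with
  | zero => rfl
  | succ m ih =>
    show pw x n * (pw x m * x) = pw x (n + m + 1) * x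
    rw [← mul_assoc, ih]

theorem pw_comm {B : Type u} [Semigroup B] (x : B) (n : ℕ) : x * pw x n = pw x n * x := by
  induction n with
  | zero => rfl
  | succ n ih =>
    show x * (pw x n * x) = pw x n * x * x
    rw [← mul_assoc, ih]

variable {A : Type u} [NonUnitalCStarAlgebra A]

theorem star_pw {x : A} (hx : IsSelfAdjoint x) (n : ℕ) : star (pw x n) = pw x n := by
  induction n with
  | zero => exact hx.star_eq
  | succ n ih =>
    show star (pw x n * x) = pw x n * x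
    rw [star_mul, ih, hx.star_eq, pw_comm]

theorem norm_pw_le {x : A} (h1 : ‖x‖ = 1) (n : ℕ) : ‖pw x n‖ ≤ 1 := by
  induction n with
  | zero => exact h1.le
  | succ n ih =>
    refine (norm_mul_le _ _).trans ?_
    rw [h1, mul_one]
    exact ih

theorem norm_pw_two {x : A} (hx : IsSelfAdjoint x) (h1 : ‖x‖ = 1) (m : ℕ) :
    ‖pw x (2 ^ m - 1)‖ = 1 := by
  induction m with
  | zero => exact h1
  | succ m ih =>
    have e : 2 ^ (m + 1) - 1 = (2 ^ m - 1) + (2 ^ m - 1) + 1 := by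
      have : 0 < 2 ^ m := by positivity
      rw [pow_succ]
      omega
    rw [e, ← pw_mul_pw]
    have h := CStarRing.norm_star_mul_self (x := pw x (2 ^ m - 1))
    rw [star_pw hx] at h
    rw [h, ih, one_mul]

theorem norm_pw {x : A} (hx : IsSelfAdjoint x) (h1 : ‖x‖ = 1) (n : ℕ) : ‖pw x n‖ = 1 := by
  refine le_antisymm (norm_pw_le h1 n) ?_
  have hn : n + 1 ≤ 2 ^ (n + 1) - 1 := by
    have : n + 1 < 2 ^ (n + 1) := Nat.lt_two_pow_self
    omega
  obtain ⟨k, hk⟩ := Nat.exists_eq_add_of_le hn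
  have h := norm_pw_two hx h1 (n + 1)
  have e : 2 ^ (n + 1) - 1 = n + k + 1 := by omega
  rw [e, ← pw_mul_pw] at h
  calc (1 : ℝ) = ‖pw x n * pw x k‖ := h.symm
    _ ≤ ‖pw x n‖ * ‖pw x k‖ := norm_mul_le _ _
    _ ≤ ‖pw x n‖ * 1 := mul_le_mul_of_nonneg_left (norm_pw_le h1 k) (norm_nonneg _)
    _ = ‖pw x n‖ := mul_one _

theorem pw_j {A : Type u} {B : Type v} {C : Type w} [NonUnitalNormedRing A] [NormedSpace ℂ A]
    [NonUnitalNormedRing B] [NormedSpace ℂ B] [NonUnitalNormedRing C] [NormedSpace ℂ C]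
    {j : A →ₗ[ℂ] B →ₗ[ℂ] C} (hj : IsProj A B C j) (x : A) (q : B) (n : ℕ) :
    pw (j x q) n = j (pw x n) (pw q n) := by
  induction n with
  | zero => rfl
  | succ n ih =>
    show pw (j x q) n * j x q = j (pw x n * x) (pw q n * q)
    rw [ih, hj.mul]

end powers

/-- The estimate. -/
theorem est {A : Type u} {B : Type v} {C : Type w}
    [NonUnitalCStarAlgebra A] [NonUnitalNormedRing B] [NormedSpace ℂ B] [IsScalarTower ℂ B B]
    [SMulCommClass ℂ B B] [NonUnitalNormedRing C] [NormedSpace ℂ C]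
    [IsScalarTower ℂ C C] [SMulCommClass ℂ C C]
    {j : A →ₗ[ℂ] B →ₗ[ℂ] C} (hj : IsProj A B C j) (hcross : ∀ a b, ‖j a b‖ = ‖a‖ * ‖b‖)
    {φ : A →L[ℂ] ℂ} (hφ : Excisable φ) {L : C →L[ℂ] B} (hL : ∀ a b, L (j a b) = φ a • b)
    (u : C) (b b' : B) {δ : ℝ} (hδ : 0 < δ) :
    ∃ c : A, IsSelfAdjoint c ∧ ‖c‖ = 1 ∧
      ‖j (c * c) (b * L u * b') - j c b * u * j c b'‖ ≤
        (1 + ‖b‖ * ‖b'‖ + ‖b‖ * ‖L‖ * ‖b'‖) * δ := by
  classical
  obtain ⟨t₀, ht₀⟩ := hj.dense.exists_dist_lt u hδ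
  rw [dist_eq_norm] at ht₀
  obtain ⟨n, a, q, hsum⟩ := TensorProduct.exists_sum_tmul_eq t₀
  set S : ℝ := 1 + ∑ i, ‖b‖ * ‖q i‖ * ‖b'‖ with hS
  have hS0 : 0 < S := by positivity
  obtain ⟨c, hc, hc1, hc2⟩ := hφ (Finset.univ.image a) (δ / S) (by positivity)
  refine ⟨c, hc, hc1, ?_⟩
  set E : C := TensorProduct.lift j t₀ with hE
  have hEs : E = ∑ i, j (a i) (q i) := by
    rw [hE, hsum, map_sum]
    exact Finset.sum_congr rfl fun i _ => TensorProduct.lift.tmul _ _
  have h1 : j c b * E * j c b' = ∑ i, j (c * a i * c) (b * q i * b') := by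
    rw [hEs, Finset.mul_sum, Finset.sum_mul]
    refine Finset.sum_congr rfl fun i _ => ?_
    rw [hj.mul, hj.mul]
  have h2 : j (c * c) (b * L E * b') = ∑ i, j (φ (a i) • (c * c)) (b * q i * b') := by
    rw [hEs, map_sum, Finset.mul_sum, Finset.sum_mul, map_sum]
    refine Finset.sum_congr rfl fun i _ => ?_
    rw [hL, mul_smul_comm, smul_mul_assoc, map_smul, map_smul, LinearMap.smul_apply]
  have h3 : ‖j (c * c) (b * L E * b') - j c b * E * j c b'‖ ≤ δ := by
    rw [h1, h2, ← Finset.sum_sub_distrib]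
    have h4 : ∀ i ∈ (Finset.univ : Finset (Fin n)),
        ‖j (φ (a i) • (c * c)) (b * q i * b') - j (c * a i * c) (b * q i * b')‖ ≤
          δ / S * (‖b‖ * ‖q i‖ * ‖b'‖) := by
      intro i _
      rw [← LinearMap.sub_apply, ← map_sub, hcross]
      refine mul_le_mul ?_ ?_ (norm_nonneg _) (by positivity)
      · rw [norm_sub_rev]
        exact hc2 (a i) (Finset.mem_image_of_mem _ (Finset.mem_univ _))
      · refine (norm_mul_le _ _).trans ?_
        exact mul_le_mul_of_nonneg_right (norm_mul_le _ _) (norm_nonneg _)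
    refine (norm_sum_le_of_le _ h4).trans ?_
    rw [← Finset.mul_sum]
    have h5 : ∑ i, ‖b‖ * ‖q i‖ * ‖b'‖ ≤ S := by
      rw [hS]
      linarith
    calc δ / S * ∑ i, ‖b‖ * ‖q i‖ * ‖b'‖ ≤ δ / S * S :=
          mul_le_mul_of_nonneg_left h5 (by positivity)
      _ = δ := div_mul_cancel₀ _ hS0.ne'
  have h6 : ‖j c b * (E - u) * j c b'‖ ≤ ‖b‖ * ‖b'‖ * δ := by
    refine (norm_mul_le _ _).trans ?_
    have h7 : ‖j c b * (E - u)‖ ≤ ‖b‖ * δ := by
      refine (norm_mul_le _ _).trans ?_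
      rw [hcross, hc1, one_mul, norm_sub_rev]
      exact mul_le_mul_of_nonneg_left ht₀.le (norm_nonneg _)
    rw [hcross, hc1, one_mul]
    calc ‖j c b * (E - u)‖ * ‖b'‖ ≤ ‖b‖ * δ * ‖b'‖ :=
          mul_le_mul_of_nonneg_right h7 (norm_nonneg _)
      _ = _ := by ring
  have hcc : ‖c * c‖ ≤ 1 := by
    refine (norm_mul_le _ _).trans ?_
    rw [hc1, one_mul]
  have h8 : ‖j (c * c) (b * L (u - E) * b')‖ ≤ ‖b‖ * ‖L‖ * ‖b'‖ * δ := by
    rw [hcross]
    have h9 : ‖b * L (u - E) * b'‖ ≤ ‖b‖ * (‖L‖ * δ) * ‖b'‖ := by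
      refine (norm_mul_le _ _).trans ?_
      refine mul_le_mul_of_nonneg_right ?_ (norm_nonneg _)
      refine (norm_mul_le _ _).trans ?_
      refine mul_le_mul_of_nonneg_left ?_ (norm_nonneg _)
      refine (L.le_opNorm _).trans ?_
      exact mul_le_mul_of_nonneg_left ht₀.le (norm_nonneg _)
    calc ‖c * c‖ * ‖b * L (u - E) * b'‖ ≤ 1 * (‖b‖ * (‖L‖ * δ) * ‖b'‖) :=
          mul_le_mul hcc h9 (norm_nonneg _) zero_le_one
      _ = _ := by ring
  have h10 : j (c * c) (b * L u * b') - j c b * u * j c b' =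
      j (c * c) (b * L (u - E) * b') + ((j (c * c) (b * L E * b') - j c b * E * j c b') +
        j c b * (E - u) * j c b') := by
    rw [map_sub L, mul_sub, sub_mul, map_sub, mul_sub, sub_mul]
    abel
  rw [h10]
  refine (norm_add_le _ _).trans ?_
  have h11 := norm_add_le (j (c * c) (b * L E * b') - j c b * E * j c b')
    (j c b * (E - u) * j c b')
  calc ‖j (c * c) (b * L (u - E) * b')‖ +
        ‖(j (c * c) (b * L E * b') - j c b * E * j c b') + j c b * (E - u) * j c b'‖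
      ≤ ‖b‖ * ‖L‖ * ‖b'‖ * δ + (δ + ‖b‖ * ‖b'‖ * δ) := by
        refine add_le_add h8 (h11.trans (add_le_add h3 h6))
    _ = _ := by ring

/-- **(KEY)** -/
theorem gKEY : G_KEY.{u, v, w} := by
  intro hC hS1 hS2 hQ A B C _ _ _ _ _ _ _ _ _ _ _ j hj φ hφ L hL u hu
  refine hQ B (L u) fun b b' => ?_
  have hcross := hC A B C j hj
  set M : ℝ := 1 + ‖b‖ * ‖b'‖ + ‖b‖ * ‖L‖ * ‖b'‖ with hM
  have hM0 : 0 < M := by positivity
  have key : ∀ ε : ℝ, 0 < ε →
      spectralRadius ℂ ((b * L u * b' : B) : Unitization ℂ B) ≤ ENNReal.ofReal ε := by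
    intro ε hε
    obtain ⟨c, hc, hc1, hest⟩ := est hj hcross hφ hL u b b' (δ := ε / M) (by positivity)
    rw [← hM, mul_div_cancel₀ _ hM0.ne'] at hest
    have hw : ((j c b * u * j c b' : C) : Unitization ℂ C) ∈
        Ring.jacobson (Unitization ℂ C) := by
      rw [Unitization.inr_mul, Unitization.inr_mul]
      exact Ideal.mul_mem_right _ _ (Ideal.mul_mem_left _ _ hu)
    have h1 := hS1 C (j (c * c) (b * L u * b')) (j c b * u * j c b') ε hε.le hw hest
    have h2 := hS2 B C (b * L u * b') (j (c * c) (b * L u * b')) (fun n => by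
      rw [pw_j hj, hcross]
      have hcc : IsSelfAdjoint (c * c) := by
        show star (c * c) = c * c
        rw [star_mul, hc.star_eq]
      have hcc1 : ‖c * c‖ = 1 := by
        have h := CStarRing.norm_star_mul_self (x := c)
        rw [hc.star_eq, hc1] at h
        rw [h, one_mul]
      rw [norm_pw hcc hcc1, one_mul])
    rw [← h2]
    exact h1
  refine le_antisymm ?_ bot_le
  refine ENNReal.le_of_forall_pos_le_add fun ε hε _ => ?_
  have := key ε (by exact_mod_cast hε)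
  rw [ENNReal.ofReal_coe_nnreal] at this
  exact this.trans (le_add_left le_rfl)

end Pool.Agent.Helper9.SS
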